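import Pool.Agent.BEH.StmtsS

/-!
# Squad BEH (MP_be01ff_an), row STB: stability of the spectral conditions
-/

set_option autoImplicit false

namespace Pool.Agent.BEH.H85

open Set Filter Topology MeasureTheory
open scoped InnerProductSpace ENNReal
open Pool.Agent.BE01 Pool.Agent.BEL Pool.Agent.BEH

/-- Row STB. -/
theorem stb (mmx : MmxStmt) (cpt : CptStmt) : StbStmt := by
  intro d Ω ι b e om hOk M η hη h01 hne
  have hpos := hOk.spec.pos
  have hmono := hOk.spec.mono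
  -- the index N
  obtain ⟨N, hN⟩ := (hOk.spec.top.eventually_gt_atTop (((M : ℝ) + 1) * (om 0 + 1))).exists
  have hM1 : (0 : ℝ) < (M : ℝ) ^ 2 + 1 := by positivity
  have hlt : ∀ c : ℝ, 0 < c → ∀ᶠ δ in 𝓝[>] (0 : ℝ), δ < c := fun c hc =>
    (eventually_lt_nhds hc).filter_mono nhdsWithin_le_nhds
  have hfin : ∀ᶠ δ in 𝓝[>] (0 : ℝ), ∀ p ∈ Finset.range (M + 1) ×ˢ Finset.range (N + 1),
      Odd p.1 ∧ 3 ≤ p.1 → δ < |(p.1 : ℝ) ^ 2 * om 0 ^ 2 - om p.2 ^ 2| / ((M : ℝ) ^ 2 + 1) := by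
    refine (Filter.eventually_all_finset _).2 fun p hp => ?_
    by_cases hc : Odd p.1 ∧ 3 ≤ p.1
    · have hpM : p.1 ≤ M := by
        have := (Finset.mem_product.1 hp).1
        rw [Finset.mem_range] at this
        omega
      have h := hne p.1 hc.1 hc.2 hpM p.2
      have h' : 0 < |(p.1 : ℝ) ^ 2 * om 0 ^ 2 - om p.2 ^ 2| / ((M : ℝ) ^ 2 + 1) :=
        div_pos (abs_pos.2 (sub_ne_zero.2 h)) hM1
      filter_upwards [hlt _ h'] with δ hδ _ using hδ
    · filter_upwards with δ h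
      exact absurd h hc
  have h10 : 0 < om 1 ^ 2 - om 0 ^ 2 := by
    have := pow_lt_pow_left₀ h01 (hpos 0).le (two_ne_zero)
    linarith
  obtain ⟨δ, hδη, hδ1, hδ2, hδ3, hδ0⟩ :=
    ((hlt η hη).and ((hlt 1 one_pos).and ((hlt _ h10).and
      (hfin.and self_mem_nhdsWithin)))).exists
  have hδ0' : 0 < δ := hδ0
  obtain ⟨K, hKc, hKΩ, hK⟩ := cpt d Ω ι b e om hOk N δ hδ0'
  refine ⟨K, hKc, hKΩ, ?_⟩
  intro Ω' ι' b' e' om' hOk' hKΩ' hΩ'
  have h1 := hK Ω' ι' b' e' om' hOk' hKΩ' hΩ'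
  have h2 := mmx d Ω Ω' ι b e om ι' b' e' om' hOk hOk' hΩ'
  have hpos' := hOk'.spec.pos
  have hsq : ∀ k, om k ^ 2 ≤ om' k ^ 2 := fun k => pow_le_pow_left₀ (hpos k).le (h2 k) 2
  have h00 := h1 0 (Nat.zero_le N)
  refine ⟨?_, by linarith, ?_⟩
  · refine lt_of_pow_lt_pow_left₀ 2 (hpos' 1).le ?_
    have := hsq 1
    linarith
  · intro n hn h3 hnM k heq
    have hnM' : (n : ℝ) ≤ M := by exact_mod_cast hnM
    have hn0 : (0 : ℝ) ≤ n := Nat.cast_nonneg n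
    rcases le_or_gt k N with hk | hk
    · have h4 := h1 k hk
      have h5 := hsq k
      have h6 := hsq 0
      have h7 := hδ3 (n, k) (Finset.mem_product.2
        ⟨Finset.mem_range.2 (by simpa using Nat.lt_succ_of_le hnM),
          Finset.mem_range.2 (by simpa using Nat.lt_succ_of_le hk)⟩) ⟨hn, h3⟩
      rw [lt_div_iff₀ hM1] at h7
      simp only at h7
      have hn2 : (n : ℝ) ^ 2 ≤ (M : ℝ) ^ 2 := pow_le_pow_left₀ hn0 hnM' 2
      have hn2' : 0 ≤ (n : ℝ) ^ 2 := by positivity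
      have e1 : (n : ℝ) ^ 2 * om 0 ^ 2 ≤ (n : ℝ) ^ 2 * om' 0 ^ 2 :=
        mul_le_mul_of_nonneg_left h6 hn2'
      have e2 : (n : ℝ) ^ 2 * om' 0 ^ 2 ≤ (n : ℝ) ^ 2 * om 0 ^ 2 + (M : ℝ) ^ 2 * δ := by
        have e3 : (n : ℝ) ^ 2 * om' 0 ^ 2 ≤ (n : ℝ) ^ 2 * (om 0 ^ 2 + δ) :=
          mul_le_mul_of_nonneg_left h00 hn2'
        have e4 : (n : ℝ) ^ 2 * δ ≤ (M : ℝ) ^ 2 * δ := mul_le_mul_of_nonneg_right hn2 hδ0'.le
        linarith
      have e5 : 0 ≤ (M : ℝ) ^ 2 * δ := by positivity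
      have h8 : |(n : ℝ) ^ 2 * om 0 ^ 2 - om k ^ 2| ≤ δ * ((M : ℝ) ^ 2 + 1) := by
        rw [abs_le]
        constructor <;> linarith
      linarith
    · have h4 : om N ≤ om' k := (hmono hk.le).trans (h2 k)
      have h5 : om' 0 ≤ om 0 + 1 := by
        by_contra hcon
        push Not at hcon
        have h6 := pow_lt_pow_left₀ hcon (by linarith [hpos 0]) (two_ne_zero)
        have h7 := hpos 0
        nlinarith
      have h6 : (n : ℝ) * om' 0 < om' k := by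
        have h7 : (n : ℝ) * om' 0 ≤ ((M : ℝ) + 1) * (om 0 + 1) :=
          mul_le_mul (by linarith) h5 (hpos' 0).le (by positivity)
        linarith
      have h7 := pow_lt_pow_left₀ h6 (mul_nonneg hn0 (hpos' 0).le) (two_ne_zero)
      rw [mul_pow, heq] at h7
      exact lt_irrefl _ h7

end Pool.Agent.BEH.H85
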